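import Pool.Agent.helper48.AGR.Spec

/-!
# Row ag:BAL: balls of word lengths
-/

set_option autoImplicit false

namespace Pool.Agent.AGR

theorem BAL_cover {G : Type} [Group G] (S : Finset G) (n : ℕ) :
    ∃ B : Finset G, Ball (S : Set G) n ⊆ (B : Set G) ∧ B.card ≤ (2 * S.card + 1) ^ n := by
  classical
  induction n with
  | zero =>
    refine ⟨{1}, ?_, ?_⟩
    · rintro g ⟨l, hl, _, hp⟩
      have : l = [] := List.length_eq_zero_iff.mp (Nat.le_zero.mp hl)
      subst this
      rw [← hp]
      simp
    · simp
  | succ n ih =>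
    obtain ⟨B, hB, hc⟩ := ih
    refine ⟨Finset.image₂ (fun a b => a * b) (insert 1 (S ∪ S.image fun x => x⁻¹)) B, ?_, ?_⟩
    · rintro g ⟨l, hl, hm, hp⟩
      rw [Finset.mem_coe, Finset.mem_image₂]
      cases l with
      | nil =>
        refine ⟨1, Finset.mem_insert_self _ _, 1, Finset.mem_coe.mp (hB ?_), ?_⟩
        · exact ⟨[], Nat.zero_le _, by simp, rfl⟩
        · rw [← hp]; simp
      | cons a l =>
        refine ⟨a, ?_, l.prod, Finset.mem_coe.mp (hB ?_), ?_⟩
        · refine Finset.mem_insert_of_mem ?_
          rcases hm a (List.mem_cons_self) with h | h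
          · exact Finset.mem_union_left _ (Finset.mem_coe.mp h)
          · refine Finset.mem_union_right _ (Finset.mem_image.mpr ⟨a⁻¹, Finset.mem_coe.mp h, ?_⟩)
            exact inv_inv a
        · refine ⟨l, ?_, fun x hx => hm x (List.mem_cons_of_mem _ hx), rfl⟩
          rw [List.length_cons] at hl
          omega
        · rw [← hp, List.prod_cons]
    · refine (Finset.card_image₂_le _ _ _).trans ?_
      have h1 : (insert 1 (S ∪ S.image fun x => x⁻¹)).card ≤ 2 * S.card + 1 := by
        refine (Finset.card_insert_le _ _).trans ?_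
        have h2 := Finset.card_union_le S (S.image fun x => x⁻¹)
        have h3 : (S.image fun x => x⁻¹).card ≤ S.card := Finset.card_image_le
        omega
      rw [pow_succ, mul_comm]
      exact Nat.mul_le_mul hc h1

theorem BAL : BAL_stmt := by
  intro G _ S
  refine ⟨?_, ?_, ?_, ?_, ?_⟩
  · rintro m n g h ⟨l, hl, hm, rfl⟩ ⟨l', hl', hm', rfl⟩
    refine ⟨l ++ l', ?_, ?_, List.prod_append⟩
    · rw [List.length_append]; omega
    · intro x hx
      rcases List.mem_append.mp hx with hx | hx
      · exact hm x hx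
      · exact hm' x hx
  · rintro n g ⟨l, hl, hm, rfl⟩
    refine ⟨(l.map fun x => x⁻¹).reverse, ?_, ?_, ?_⟩
    · rw [List.length_reverse, List.length_map]; exact hl
    · intro x hx
      rw [List.mem_reverse, List.mem_map] at hx
      obtain ⟨y, hy, rfl⟩ := hx
      rw [inv_inv]
      exact (hm y hy).symm
    · exact (List.prod_inv_reverse l).symm
  · rintro m n hmn g ⟨l, hl, hm, hp⟩
    exact ⟨l, hl.trans hmn, hm, hp⟩
  · intro h g
    have hg : g ∈ Subgroup.closure (S : Set G) := by rw [h]; trivial
    induction hg using Subgroup.closure_induction'' with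
    | one => exact ⟨0, [], le_refl _, by simp, rfl⟩
    | mem x hx => exact ⟨1, [x], le_refl _, by simpa using Or.inl hx, by simp⟩
    | inv_mem x hx => exact ⟨1, [x⁻¹], le_refl _, by simpa using Or.inr hx, by simp⟩
    | mul x y _ _ hx hy =>
      obtain ⟨m, l, hl, hm, rfl⟩ := hx
      obtain ⟨n, l', hl', hm', rfl⟩ := hy
      refine ⟨m + n, l ++ l', ?_, ?_, List.prod_append⟩
      · rw [List.length_append]; omega
      · intro x hx
        rcases List.mem_append.mp hx with hx | hx
        · exact hm x hx
        · exact hm' x hx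
  · intro n
    obtain ⟨B, hB, hc⟩ := BAL_cover S n
    refine ⟨B.finite_toSet.subset hB, ?_⟩
    refine (Set.ncard_le_ncard hB B.finite_toSet).trans ?_
    rw [Set.ncard_coe_finset]
    exact hc

end Pool.Agent.AGR
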